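import Mathlib
import Pool.Agent.R91.Cup.Good

set_option autoImplicit false

/-!
# MP_28cddd_co: alternating chains of stackable and strongly non-stackable graphs exist
(Q2, hence Q1, in the affirmative)
-/

namespace Pool.Agent.Results.MP_28cddd_co.AlternatingChains

open Pool.Agent.R91.Cup

/-- For every `r` there is a chain `G 1 ≤ G 2 ≤ ⋯ ≤ G r` of connected graphs on one finite vertex
set such that `G i` is stackable for odd `i` and strongly non-stackable for even `i`. -/
theorem result (r : ℕ) :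
    ∃ (V : Type) (_ : Fintype V) (G : ℕ → SimpleGraph V),
      (∀ i, 1 ≤ i → i ≤ r → (G i).Connected) ∧
      (∀ i, 1 ≤ i → i < r → G i ≤ G (i + 1)) ∧
      (∀ i, 1 ≤ i → i ≤ r → Odd i → Stackable (G i)) ∧
      (∀ i, 1 ≤ i → i ≤ r → Even i → StronglyNonStackable (G i)) := by
  classical
  set R := r + 3 with hR
  set M := 30 ^ R with hM
  set N := 8 * M + 10 with hN
  have hMpos : 1 ≤ M := Nat.one_le_pow _ _ (by norm_num)
  refine ⟨Vtx M N, inferInstance,
    fun i => state M N (2 * 30 ^ ((i + 1) / 2)) (30 ^ (R - (i / 2 + 1)) - 2), ?_, ?_, ?_, ?_⟩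
  · intro i h1 h2
    apply state_connected
    · have : 1 ≤ 30 ^ ((i + 1) / 2) := Nat.one_le_pow _ _ (by norm_num)
      omega
    · exact hMpos
    · have : 30 ^ (R - (i / 2 + 1)) ≤ M := Nat.pow_le_pow_right (by norm_num) (by omega)
      omega
  · intro i h1 h2
    apply state_mono
    · exact Nat.mul_le_mul_left _ (Nat.pow_le_pow_right (by norm_num) (by omega))
    · exact Nat.sub_le_sub_right (Nat.pow_le_pow_right (by norm_num) (by omega)) _
  · intro i h1 h2 hodd
    obtain ⟨m, rfl⟩ := hodd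
    have e1 : (2 * m + 1 + 1) / 2 = m + 1 := by omega
    have e2 : (2 * m + 1) / 2 + 1 = m + 1 := by omega
    simp only [e1, e2]
    have hx : 30 ≤ 30 ^ (m + 1) := by
      calc 30 = 30 ^ 1 := by norm_num
        _ ≤ 30 ^ (m + 1) := Nat.pow_le_pow_right (by norm_num) (by omega)
    have hy : 30 ≤ 30 ^ (R - (m + 1)) := by
      calc 30 = 30 ^ 1 := by norm_num
        _ ≤ 30 ^ (R - (m + 1)) := Nat.pow_le_pow_right (by norm_num) (by omega)
    have hMxy : M = 30 ^ (m + 1) * 30 ^ (R - (m + 1)) := by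
      rw [hM, ← pow_add]; congr 1; omega
    generalize 30 ^ (m + 1) = x at *
    generalize 30 ^ (R - (m + 1)) = y at *
    obtain ⟨z, rfl⟩ : ∃ z, y = z + 2 := ⟨y - 2, by omega⟩
    simp only [Nat.add_sub_cancel]
    have hM2 : M = 2 * x + x * z := by rw [hMxy]; ring
    apply good (g := x)
    · omega
    · exact hM2
    · omega
    · have h3 : x * (3 * z + 4) = 3 * (x * z) + 4 * x := by ring
      have h4 : z ≤ x * z := Nat.le_mul_of_pos_left _ (by omega)
      rw [h3]
      omega
  · intro i h1 h2 heven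
    obtain ⟨m, rfl⟩ := heven
    have e1 : (m + m + 1) / 2 = m := by omega
    have e2 : (m + m) / 2 + 1 = m + 1 := by omega
    simp only [e1, e2]
    have hx : 30 ≤ 30 ^ m := by
      calc 30 = 30 ^ 1 := by norm_num
        _ ≤ 30 ^ m := Nat.pow_le_pow_right (by norm_num) (by omega)
    have hy : 30 ≤ 30 ^ (R - (m + 1)) := by
      calc 30 = 30 ^ 1 := by norm_num
        _ ≤ 30 ^ (R - (m + 1)) := Nat.pow_le_pow_right (by norm_num) (by omega)
    have hMxy : M = 30 * (30 ^ m * 30 ^ (R - (m + 1))) := by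
      rw [hM, ← pow_add, ← pow_succ']; congr 1; omega
    generalize 30 ^ m = x at *
    generalize 30 ^ (R - (m + 1)) = y at *
    obtain ⟨z, rfl⟩ : ∃ z, y = z + 2 := ⟨y - 2, by omega⟩
    simp only [Nat.add_sub_cancel]
    have h5 : x * 30 ≤ x * (z + 2) := Nat.mul_le_mul_left _ hy
    have h6 : 30 * (z + 2) ≤ x * (z + 2) := Nat.mul_le_mul_right _ hx
    apply bad
    · omega
    · omega
    · omega
    · omega
    · have h7 : (2 * x + 2) * (4 * z + 6) = 8 * (x * (z + 2)) - 4 * x + (8 * z + 12) := by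
        have : 4 * x ≤ 8 * (x * (z + 2)) := by omega
        zify [this]
        ring
      rw [h7]
      omega

end Pool.Agent.Results.MP_28cddd_co.AlternatingChains
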